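import Pool.Agent.H91.OR.Defs
import Pool.Agent.H91.SX.Ex
import Pool.Agent.H8.RG.Cpt

set_option autoImplicit false

/-!
# The exceptional tensors are in the equality case
-/

namespace Pool.Agent.H91.OR

open Pool.Agent.H61.YP Pool.Agent.H8.RG Pool.Agent.H91.SX
open scoped BigOperators RealInnerProductSpace

variable {n : ℕ}

lemma curv_eq (R S : CurvTensor n) (h : ∀ x y z u : E n, R.toFun x y z u = S.toFun x y z u) :
    R = S := by
  have h1 : R.toFun = S.toFun := by
    funext x y z u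
    exact h x y z u
  cases R
  cases S
  simp only at h1
  subst h1
  rfl

/-- the form of a skew map -/
noncomputable def formJ (J : E n →ₗ[ℝ] E n) (hs : ∀ x y : E n, ⟪J x, y⟫ = -⟪J y, x⟫) :
    Form n 2 where
  toFun v := ⟪J (v 0), v 1⟫
  map_update_add' := by
    intro _ v i x y
    fin_cases i
    · simp [inner_add_left]
    · simp [inner_add_right]
  map_update_smul' := by
    intro _ v i c x
    fin_cases i
    · simp [real_inner_smul_left]
    · simp [real_inner_smul_right]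
  map_eq_zero_of_eq' := by
    intro v i j hij hne
    fin_cases i <;> fin_cases j
    · exact absurd rfl hne
    · simp only [Fin.zero_eta, Fin.mk_one] at hij
      change ⟪J (v 0), v 1⟫ = 0
      rw [hij]
      exact self_zero J hs _
    · simp only [Fin.zero_eta, Fin.mk_one] at hij
      change ⟪J (v 0), v 1⟫ = 0
      rw [hij]
      exact self_zero J hs _
    · exact absurd rfl hne

lemma formJ_apply (J : E n →ₗ[ℝ] E n) (hs : ∀ x y : E n, ⟪J x, y⟫ = -⟪J y, x⟫)
    (v : Fin 2 → E n) : formJ J hs v = ⟪J (v 0), v 1⟫ := rfl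

/-- the class of exceptional tensors is a cone -/
lemma model_smul (S : CurvTensor n) (a : ℝ) (ha : 0 < a) (hS : IsOddModel S) :
    IsOddModel (smulT a S) := by
  obtain ⟨l, J, ν, hl, hν, hs, hJ, h⟩ := (isOddModel_iff S).1 hS
  refine (isOddModel_iff _).2 ⟨a * l, J, ν, mul_pos ha hl, hν, hs, hJ, fun x y z u => ?_⟩
  change a * S.toFun x y z u = _
  rw [h]
  ring

/-- the exceptional tensors are in the equality case of degree two -/
theorem model_two (h5 : 5 ≤ n) (R : CurvTensor n) (hR : IsOddModel R) :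
    (∃ x y z u, R.toFun x y z u ≠ 0) ∧
    SecGe R (((n : ℝ) - 3) / (((n : ℝ) - 1) * (n ^ 2 - 6)) * R.scal) ∧
    ∃ ω : Form n 2, ω ≠ 0 ∧ R.weitzForm ω ≤ 0 := by
  obtain ⟨l, J, ν, hl, hν, hs0, hJJ, hR⟩ := (isOddModel_iff R).1 hR
  have hn5 : (5 : ℝ) ≤ n := by exact_mod_cast h5
  have hn1 : (0 : ℝ) < (n : ℝ) - 1 := by linarith
  have hn2 : (0 : ℝ) < (n : ℝ) - 2 := by linarith
  have hn3 : (0 : ℝ) < (n : ℝ) - 3 := by linarith
  have hn6 : (0 : ℝ) < (n : ℝ) ^ 2 - 6 := by nlinarith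
  have hs : ∀ x y : E n, ⟪J x, y⟫ = -⟪J y, x⟫ := by
    intro x y
    rw [hs0, real_inner_comm]
  have hνν : ⟪ν, ν⟫ = 1 := by rw [real_inner_self_eq_norm_sq, hν]; norm_num
  have hJν : J ν = 0 := by
    have h1 : J (J ν) = 0 := by rw [hJJ, hνν, one_smul, sub_self]
    have h2 : ⟪J ν, J ν⟫ = 0 := by rw [hs0, h1, inner_zero_right, neg_zero]
    exact inner_self_eq_zero.mp h2
  have hJ3 : ∀ x, J (J (J x)) = -J x := by
    intro x
    rw [hJJ x, map_sub, map_smul, hJν, smul_zero, zero_sub]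
  have ht : ∑ i, ⟪J (J (e i)), (e i : E n)⟫ = -((n : ℝ) - 1) := by
    have h1 : ∀ i : Fin n, ⟪J (J (e i)), (e i : E n)⟫ = ⟪ν, (e i : E n)⟫ ^ 2 - 1 := by
      intro i
      rw [hJJ, inner_sub_left, real_inner_smul_left, real_inner_comm ν (e i),
        real_inner_self_eq_norm_sq (e i)]
      have : ‖(e i : E n)‖ = 1 := by simp [e]
      rw [this]
      ring
    simp_rw [h1]
    rw [Finset.sum_sub_distrib, Cplx_sum_sq, hν]
    simp
  set c : ℝ := ((n : ℝ) - 3) / (3 * ((n : ℝ) - 2)) with hc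
  have hc0 : 0 < c := by positivity
  have hRe : R = smulT (3 * l) (RJ c J hs) := by
    refine curv_eq _ _ fun x y z u => ?_
    rw [hR]
    change _ = 3 * l * (c * (⟪y, z⟫ * ⟪x, u⟫ - ⟪x, z⟫ * ⟪y, u⟫)
      + 1 / 3 * (⟪J y, z⟫ * ⟪J x, u⟫ - ⟪J x, z⟫ * ⟪J y, u⟫ - 2 * ⟪J x, y⟫ * ⟪J z, u⟫))
    rw [hs0 x y]
    have h2 : c = 1 / 3 * (((n : ℝ) - 3) / ((n : ℝ) - 2)) := by
      rw [hc]; field_simp
    rw [h2]
    ring
  have hscal : R.scal = 3 * l * (c * ((n : ℝ) * ((n : ℝ) - 1)) + ((n : ℝ) - 1)) := by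
    rw [hRe, smulT_scal, RJ_scal c J hs _ ht]
  have hκ : ((n : ℝ) - 3) / (((n : ℝ) - 1) * (n ^ 2 - 6)) * R.scal = 3 * l * c := by
    rw [hscal, hc]
    field_simp
    ring
  have hsec : SecGe R (((n : ℝ) - 3) / (((n : ℝ) - 1) * (n ^ 2 - 6)) * R.scal) := by
    intro x y hx hy hxy
    rw [hκ, hRe]
    change 3 * l * c ≤ 3 * l * (RJ c J hs).toFun x y y x
    rw [RJ_sec c J hs x y hx hy hxy]
    have := sq_nonneg ⟪J x, y⟫
    nlinarith
  refine ⟨?_, hsec, formJ J hs, ?_, ?_⟩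
  · by_contra hcon
    push Not at hcon
    have h0 : R.scal = 0 := by
      unfold CurvTensor.scal
      exact Finset.sum_eq_zero fun i _ => Finset.sum_eq_zero fun j _ => hcon _ _ _ _
    have h1 : 0 < R.scal := by rw [hscal]; positivity
    linarith
  · -- a unit vector orthogonal to `ν`
    intro h0
    have h1 : ∀ x y : E n, ⟪J x, y⟫ = 0 := by
      intro x y
      have : formJ J hs ![x, y] = 0 := by rw [h0]; rfl
      exact this
    have h2 : ∀ x, J x = 0 := fun x => inner_self_eq_zero.mp (h1 x (J x))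
    have h3 : ∑ i, ⟪J (J (e i)), (e i : E n)⟫ = 0 := by
      simp [h2]
    rw [ht] at h3
    linarith
  · have hder : ∀ (g : E n → E n) (μ : ℝ),
        (∀ z u : E n, ⟪J (g z), u⟫ + ⟪J z, g u⟫ = μ * ⟪J z, u⟫) → (∀ z, ⟪ν, g z⟫ = 0) →
        ∀ v : Fin 2 → E n,
          ∑ b, formJ J hs (Function.update v b (g (v b))) = (μ * (1 : ℝ)) * formJ J hs v := by
      intro g μ hg _ v
      rw [Fin.sum_univ_two, formJ_apply, formJ_apply, formJ_apply]
      have h1 : Function.update v 0 (g (v 0)) 0 = g (v 0) := Function.update_self _ _ _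
      have h2 : Function.update v 0 (g (v 0)) 1 = v 1 := Function.update_of_ne (by decide) _ _
      have h3 : Function.update v 1 (g (v 1)) 0 = v 0 := Function.update_of_ne (by decide) _ _
      have h4 : Function.update v 1 (g (v 1)) 1 = g (v 1) := Function.update_self _ _ _
      rw [h1, h2, h3, h4, hg]
      ring
    have h1 := weitzForm_RJ c J hs hJ3 _ ht ν hJν (1 : ℝ) (formJ J hs) hder
    have h2 : (RJ c J hs).weitzForm (formJ J hs) = 0 := by
      rw [h1, hc]
      have : (((n : ℝ) - 3) / (3 * ((n : ℝ) - 2)) * ((n : ℝ) * ((2 : ℕ) : ℝ) - ((2 : ℕ) : ℝ) ^ 2)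
          - 1 / 3 * (((n : ℝ) - 1) * (2 * 1) - (2 * 1) ^ 2)) = 0 := by
        push_cast
        field_simp
        ring
      rw [this, zero_mul]
    have h3 := smulT_weitz (3 * l) 1 (RJ c J hs) (formJ J hs)
    rw [one_smul, h2, ← hRe] at h3
    rw [h3]
    simp

end Pool.Agent.H91.OR
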