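import Pool.Agent.H8.RG.Lin

set_option autoImplicit false

/-!
# Piece B: the sectional curvatures are the squares of a two-form
-/

namespace Pool.Agent.H91.OR

open Pool.Agent.H61.YP Pool.Agent.H8.RG
open scoped BigOperators RealInnerProductSpace

variable {n : ℕ}

theorem B_upd1 (x y : E n) : (![x, y] : Fin 2 → E n) = Function.update ![x, 0] 1 y := by
  funext i
  fin_cases i
  · simp
  · simp

theorem B_add (ω : Form n 2) (x y z : E n) : ω ![x, y + z] = ω ![x, y] + ω ![x, z] := by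
  rw [B_upd1 x (y + z), B_upd1 x y, B_upd1 x z]
  exact ω.map_update_add _ _ _ _

theorem B_smul (ω : Form n 2) (a : ℝ) (x y : E n) : ω ![x, a • y] = a * ω ![x, y] := by
  rw [B_upd1 x (a • y), B_upd1 x y]
  exact ω.map_update_smul _ _ _ _

theorem B_anti (ω : Form n 2) (x y : E n) : ω ![y, x] = - ω ![x, y] := by
  have h1 := ω.map_swap ![x, y] (show (0 : Fin 2) ≠ 1 by decide)
  have h2 : (![x, y] : Fin 2 → E n) ∘ Equiv.swap 0 1 = ![y, x] := by
    funext i
    fin_cases i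
    · simp
    · simp
  rwa [h2] at h1

/-- expansion of the Jacobi form -/
theorem B_expand (W : CurvTensor n) (x u v : E n) (t : ℝ) :
    W.toFun x (u + t • v) (u + t • v) x =
      W.toFun x u u x + 2 * t * W.toFun x v u x + t ^ 2 * W.toFun x v v x := by
  rw [W.add_two, W.add_three, W.add_three, W.smul_two, W.smul_two, W.smul_three, W.smul_three,
    Lin_symm W x u v]
  ring

/-- the Jacobi form is nonnegative: its isotropic vectors are in the kernel -/
theorem B_ker (W : CurvTensor n) (hpos : ∀ x y : E n, 0 ≤ W.toFun x y y x) (x v : E n)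
    (hv : W.toFun x v v x = 0) (u : E n) : W.toFun x v u x = 0 := by
  by_contra hne
  set b := W.toFun x v u x with hb
  set q := W.toFun x u u x with hq
  have h1 := hpos x (u + (-(q + 1) / (2 * b)) • v)
  rw [B_expand, hv, ← hb, ← hq] at h1
  have h2 : 2 * (-(q + 1) / (2 * b)) * b = -(q + 1) := by
    field_simp
  rw [h2] at h1
  linarith

/-- the Jacobi form of a vector which is not in the kernel of the form -/
theorem B_one (W : CurvTensor n) (hpos : ∀ x y : E n, 0 ≤ W.toFun x y y x) (ω : Form n 2)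
    (h : ∀ x y : E n, ω ![x, y] = 0 → (∃ z, ω ![x, z] ≠ 0) → W.toFun x y y x = 0)
    (x : E n) (hx : ∃ z, ω ![x, z] ≠ 0) :
    ∃ f : ℝ, 0 ≤ f ∧ ∀ y : E n, W.toFun x y y x = f * ω ![x, y] ^ 2 := by
  obtain ⟨z, hz⟩ := hx
  refine ⟨W.toFun x z z x / ω ![x, z] ^ 2, div_nonneg (hpos x z) (sq_nonneg _), fun y => ?_⟩
  set c : ℝ := ω ![x, y] / ω ![x, z] with hc
  have h1 : ω ![x, y + (-c) • z] = 0 := by
    rw [B_add, B_smul, hc]
    field_simp
    ring
  have h2 := h x _ h1 ⟨z, hz⟩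
  have h3 := B_ker W hpos x _ h2 z
  have h4 : y = (y + (-c) • z) + c • z := by
    rw [neg_smul]
    abel
  have h5 := B_expand W x (y + (-c) • z) z c
  rw [← h4, h2, Lin_symm W x z, h3] at h5
  rw [h5, hc]
  field_simp
  ring

/-- Piece B: then the sectional curvatures are the squares of the form -/
theorem lam_of_zero (W : CurvTensor n) (hpos : ∀ x y : E n, 0 ≤ W.toFun x y y x)
    (ω : Form n 2) (hω : ω ≠ 0)
    (h : ∀ x y : E n, ω ![x, y] = 0 → (∃ z, ω ![x, z] ≠ 0) → W.toFun x y y x = 0) :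
    ∃ lam : ℝ, 0 ≤ lam ∧ ∀ x y : E n, W.toFun x y y x = lam * ω ![x, y] ^ 2 := by
  obtain ⟨x0, z0, h0⟩ : ∃ x z : E n, ω ![x, z] ≠ 0 := by
    by_contra hcon
    push Not at hcon
    apply hω
    ext v
    have h1 : v = ![v 0, v 1] := by
      funext i
      fin_cases i <;> rfl
    rw [h1, hcon]
    rfl
  obtain ⟨lam, hlam, hx0⟩ := B_one W hpos ω h x0 ⟨z0, h0⟩
  have hflip : ∀ x y : E n, ω ![x, y] ≠ 0 → ω ![y, x] ≠ 0 := fun x y hxy => by
    rw [B_anti]
    exact neg_ne_zero.2 hxy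
  have heq : ∀ (x y : E n) (f g : ℝ), ω ![x, y] ≠ 0 →
      (∀ u : E n, W.toFun x u u x = f * ω ![x, u] ^ 2) →
      (∀ u : E n, W.toFun y u u y = g * ω ![y, u] ^ 2) → f = g := by
    intro x y f g hxy hf hg
    have h1 := hf y
    rw [Lin_exch W x y, hg x, B_anti ω x y, neg_sq] at h1
    exact (mul_right_cancel₀ (pow_ne_zero 2 hxy) h1).symm
  have hnon : ∀ x : E n, (∃ z, ω ![x, z] ≠ 0) →
      ∀ y : E n, W.toFun x y y x = lam * ω ![x, y] ^ 2 := by
    intro x hx
    obtain ⟨f, hf0, hf⟩ := B_one W hpos ω h x hx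
    obtain ⟨y, hy0, hy⟩ : ∃ y : E n, ω ![x0, y] ≠ 0 ∧ ω ![x, y] ≠ 0 := by
      obtain ⟨z, hz⟩ := hx
      by_cases h1 : ω ![x, z0] = 0
      · by_cases h2 : ω ![x0, z] = 0
        · refine ⟨z0 + z, ?_, ?_⟩
          · rw [B_add, h2, add_zero]; exact h0
          · rw [B_add, h1, zero_add]; exact hz
        · exact ⟨z, h2, hz⟩
      · exact ⟨z0, h0, h1⟩
    obtain ⟨g, hg0, hg⟩ := B_one W hpos ω h y ⟨x, hflip x y hy⟩
    have e1 := heq x y f g hy hf hg
    have e2 := heq x0 y lam g hy0 hx0 hg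
    rw [e2, ← e1]
    exact hf
  refine ⟨lam, hlam, fun x y => ?_⟩
  by_cases hx : ∃ z, ω ![x, z] ≠ 0
  · exact hnon x hx y
  push Not at hx
  -- `x` is in the kernel
  have hk : ∀ u : E n, (∃ z, ω ![u, z] ≠ 0) → W.toFun x u u x = 0 := by
    intro u hu
    rw [Lin_exch W x u, hnon u hu x, B_anti ω x u, hx u]
    ring
  rw [hx y]
  by_cases hy : ∃ z, ω ![y, z] ≠ 0
  · rw [hk y hy]
    ring
  push Not at hy
  have hadd : ∀ a b c : E n, ω ![a + b, c] = ω ![a, c] + ω ![b, c] := by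
    intro a b c
    rw [B_anti ω c (a + b), B_add, B_anti ω c a, B_anti ω c b]
    ring
  have hneg : ω ![-x0, z0] = - ω ![x0, z0] := by
    rw [B_anti ω z0 (-x0), show -x0 = (-1 : ℝ) • x0 by rw [neg_smul, one_smul], B_smul,
      B_anti ω z0 x0]
    ring
  have k1 := hk (y + x0) ⟨z0, by rw [hadd, hy z0, zero_add]; exact h0⟩
  have k2 := hk (y - x0) ⟨z0, by
    rw [sub_eq_add_neg, hadd, hy z0, zero_add, hneg]
    exact neg_ne_zero.2 h0⟩
  have k3 := hk x0 ⟨z0, h0⟩
  have k4 := Lin_para' W x y x0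
  rw [k1, k2, k3] at k4
  linarith

end Pool.Agent.H91.OR
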