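import Pool.Agent.H91.OR.Defs
import Pool.Agent.H8.RG.Ker
import Pool.Agent.H61.YP.Main

set_option autoImplicit false

/-!
# A Gram matrix with a kernel and minimal Frobenius norm
-/

namespace Pool.Agent.H91.OR

open Pool.Agent.H61.YP Pool.Agent.H8.RG
open scoped BigOperators RealInnerProductSpace

variable {n : ℕ}

private theorem C_inner (x y : E n) : ⟪x, y⟫ = ∑ i, x i * y i := by
  rw [PiLp.inner_apply]
  refine Finset.sum_congr rfl fun i _ => ?_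
  rw [real_inner_comm]
  rfl

/-- Piece C: a Gram matrix with a kernel and minimal Frobenius norm -/
theorem gram_odd (hn : Odd n) (h3 : 3 ≤ n) (ω : Form n 2)
    (h : ((n : ℝ) - 1) * ∑ j, ∑ k, MB ω (e j) (e k) ^ 2 = ip ω ω ^ 2) :
    ∃ ν : E n, ‖ν‖ = 1 ∧ ∀ x y : E n,
      MB ω x y = ip ω ω / ((n : ℝ) - 1) * (⟪x, y⟫ - ⟪x, ν⟫ * ⟪y, ν⟫) := by
  obtain ⟨ν, hν, hk⟩ := exists_kernel hn ω
  refine ⟨ν, hν, ?_⟩
  have hn1 : (0 : ℝ) < (n : ℝ) - 1 := by
    have h0 : (3 : ℝ) ≤ n := by exact_mod_cast h3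
    linarith
  obtain ⟨β, hβ⟩ : ∃ β, β = ip ω ω / ((n : ℝ) - 1) := ⟨_, rfl⟩
  have hβ' : ip ω ω = β * ((n : ℝ) - 1) := by
    rw [hβ]
    field_simp
  have hνs : ∑ i, ν i * ν i = 1 := by
    rw [← C_inner, real_inner_self_eq_norm_sq, hν]
    norm_num
  have hker : ∀ y, MB ω ν y = 0 := by
    intro y
    rw [MB_apply, hk]
    unfold ip
    simp
  have hνν : ∑ j, ∑ k, ν j * ν k * MB ω (e j) (e k) = 0 := by
    rw [← bilin_expand, hker]
  have htr : ∑ j, ∑ k, dl j k * MB ω (e j) (e k) = ip ω ω := by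
    rw [← trace_MB]
    refine Finset.sum_congr rfl fun j _ => ?_
    simp [dl]
  have d1 : ∑ j : Fin n, ∑ k : Fin n, dl j k * dl j k = (n : ℝ) := by
    simp [dl]
  have d2 : ∑ j : Fin n, ∑ k : Fin n, dl j k * (ν j * ν k) = 1 := by
    rw [← hνs]
    refine Finset.sum_congr rfl fun j _ => ?_
    simp [dl]
  have d3 : ∑ j : Fin n, ∑ k : Fin n, (ν j * ν j) * (ν k * ν k) = 1 := by
    have e0 : ∀ j : Fin n, ∑ k : Fin n, (ν j * ν j) * (ν k * ν k) = ν j * ν j := by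
      intro j
      rw [← Finset.mul_sum, hνs, mul_one]
    rw [Finset.sum_congr rfl fun j _ => e0 j]
    exact hνs
  have hzero : ∑ j, ∑ k, (MB ω (e j) (e k) - β * (dl j k - ν j * ν k)) ^ 2 = 0 := by
    have key : ∑ j, ∑ k, (MB ω (e j) (e k) - β * (dl j k - ν j * ν k)) ^ 2 =
        (∑ j, ∑ k, MB ω (e j) (e k) ^ 2) - 2 * β * (∑ j, ∑ k, dl j k * MB ω (e j) (e k)) +
        2 * β * (∑ j, ∑ k, ν j * ν k * MB ω (e j) (e k)) + β ^ 2 * (∑ j : Fin n, ∑ k : Fin n, dl j k * dl j k) -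
        2 * β ^ 2 * (∑ j : Fin n, ∑ k : Fin n, dl j k * (ν j * ν k)) +
        β ^ 2 * (∑ j : Fin n, ∑ k : Fin n, (ν j * ν j) * (ν k * ν k)) := by
      simp only [Finset.mul_sum, ← Finset.sum_sub_distrib, ← Finset.sum_add_distrib]
      refine Finset.sum_congr rfl fun j _ => Finset.sum_congr rfl fun k _ => ?_
      ring
    rw [key, htr, hνν, d1, d2, d3]
    have hS : ∑ j, ∑ k, MB ω (e j) (e k) ^ 2 = β ^ 2 * ((n : ℝ) - 1) := by
      rw [hβ'] at h
      have h4 : ((n : ℝ) - 1) * ∑ j, ∑ k, MB ω (e j) (e k) ^ 2 = ((n : ℝ) - 1) * (β ^ 2 * ((n : ℝ) - 1)) := by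
        rw [h]
        ring
      exact mul_left_cancel₀ hn1.ne' h4
    rw [hS, hβ']
    ring
  have hent : ∀ j k, MB ω (e j) (e k) = β * (dl j k - ν j * ν k) := by
    intro j k
    have h4 := (Finset.sum_eq_zero_iff_of_nonneg (fun j _ => Finset.sum_nonneg fun k _ => sq_nonneg _)).1 hzero j
      (Finset.mem_univ j)
    have h5 := (Finset.sum_eq_zero_iff_of_nonneg (fun k _ => sq_nonneg _)).1 h4 k (Finset.mem_univ k)
    have h6 := pow_eq_zero_iff (two_ne_zero) |>.1 h5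
    linarith
  intro x y
  rw [← hβ, bilin_expand (MB ω) x y]
  have e1 : ∀ j k, x j * y k * MB ω (e j) (e k) = β * (dl j k * (x j * y k)) - β * ((x j * ν j) * (y k * ν k)) := by
    intro j k
    rw [hent]
    ring
  have e2 : ∑ j, ∑ k, x j * y k * MB ω (e j) (e k) =
      β * (∑ j : Fin n, ∑ k : Fin n, dl j k * (x j * y k)) - β * (∑ j : Fin n, ∑ k : Fin n, (x j * ν j) * (y k * ν k)) := by
    simp only [Finset.mul_sum, ← Finset.sum_sub_distrib]
    exact Finset.sum_congr rfl fun j _ => Finset.sum_congr rfl fun k _ => e1 j k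
  have e3 : ∑ j : Fin n, ∑ k : Fin n, dl j k * (x j * y k) = ⟪x, y⟫ := by
    rw [C_inner]
    refine Finset.sum_congr rfl fun j _ => ?_
    simp [dl]
  have e4 : ∑ j : Fin n, ∑ k : Fin n, (x j * ν j) * (y k * ν k) = ⟪x, ν⟫ * ⟪y, ν⟫ := by
    rw [C_inner, C_inner, Finset.sum_mul_sum]
  rw [e2, e3, e4]
  ring

end Pool.Agent.H91.OR
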