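import Pool.Agent.H91.OR.Defs

set_option autoImplicit false

/-!
# The linear map of a two form with a given Gram matrix

`J x = β ^ (-1/2) ∑ i, ω (x, e i) e i`.
-/

namespace Pool.Agent.H91.OR

open Pool.Agent.H61.YP Pool.Agent.H8.RG
open scoped BigOperators RealInnerProductSpace

variable {n : ℕ}

private lemma cp_inner (u : Fin n → ℝ) (y : E n) : ⟪(WithLp.toLp 2 u : E n), y⟫ = ∑ i, y i * u i := by
  rw [PiLp.inner_apply]
  exact Finset.sum_congr rfl fun i _ => rfl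

private lemma cp_curry (ω : Form n 2) (x y : E n) : ω ![x, y] = (ω.curryLeft x).curryLeft y ![] := rfl

private lemma cp_add (ω : Form n 2) (x x' y : E n) : ω ![x + x', y] = ω ![x, y] + ω ![x', y] := by
  rw [cp_curry, map_add]
  rfl

private lemma cp_smul (ω : Form n 2) (c : ℝ) (x y : E n) : ω ![c • x, y] = c * ω ![x, y] := by
  rw [cp_curry, map_smul]
  rfl

private lemma cp_swap (ω : Form n 2) (x y : E n) : ω ![x, y] = -ω ![y, x] := by
  rw [cp_curry, curry_swap]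
  rfl

private lemma cp_sum (ω : Form n 2) (x y : E n) : ω ![x, y] = ∑ i, y i * ω ![x, e i] := by
  let L : E n →ₗ[ℝ] ℝ :=
    { toFun := fun y => ω ![x, y]
      map_add' := fun y y' => by
        rw [cp_swap, cp_add, cp_swap ω x y, cp_swap ω x y']
        ring
      map_smul' := fun c y => by
        rw [cp_swap, cp_smul, cp_swap ω x y]
        show -(c * ω ![y, x]) = c * -ω ![y, x]
        ring }
  have hL : L y = ∑ i, y i * L (e i) := by
    conv_lhs => rw [← sum_coord y]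
    simp only [map_sum, map_smul, smul_eq_mul]
  exact hL

private lemma cp_MB (ω : Form n 2) (x y : E n) : MB ω x y = ∑ i, ω ![x, e i] * ω ![y, e i] := by
  rw [MB_apply, ip_succ]
  refine Finset.sum_congr rfl fun i _ => ?_
  unfold ip
  rw [Fintype.sum_unique]
  rw [cp_curry, cp_curry]
  congr 1 <;> congr 1 <;> ext k <;> exact k.elim0

/-- Piece C': the linear map of a form with such a Gram matrix -/
theorem exists_map (ω : Form n 2) (β : ℝ) (hβ : 0 < β) (ν : E n) (hν : ‖ν‖ = 1)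
    (h : ∀ x y : E n, MB ω x y = β * (⟪x, y⟫ - ⟪x, ν⟫ * ⟪y, ν⟫)) :
    ∃ J : E n →ₗ[ℝ] E n, (∀ x y : E n, ⟪J x, y⟫ = -⟪x, J y⟫) ∧
      (∀ x : E n, J (J x) = ⟪x, ν⟫ • ν - x) ∧ ∀ x y : E n, ω ![x, y] = Real.sqrt β * ⟪J x, y⟫ := by
  have hc : 0 < Real.sqrt β := Real.sqrt_pos.2 hβ
  have hcc : Real.sqrt β * Real.sqrt β = β := Real.mul_self_sqrt hβ.le
  let J : E n →ₗ[ℝ] E n :=
    { toFun := fun x => WithLp.toLp 2 (fun i => (Real.sqrt β)⁻¹ * ω ![x, e i])
      map_add' := fun x x' => by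
        ext i
        show (Real.sqrt β)⁻¹ * ω ![x + x', e i] = (Real.sqrt β)⁻¹ * ω ![x, e i] + (Real.sqrt β)⁻¹ * ω ![x', e i]
        rw [cp_add]
        ring
      map_smul' := fun c x => by
        ext i
        show (Real.sqrt β)⁻¹ * ω ![c • x, e i] = c * ((Real.sqrt β)⁻¹ * ω ![x, e i])
        rw [cp_smul]
        ring }
  have hJ : ∀ x y : E n, ω ![x, y] = Real.sqrt β * ⟪J x, y⟫ := by
    intro x y
    have h1 : ⟪J x, y⟫ = ∑ i, y i * ((Real.sqrt β)⁻¹ * ω ![x, e i]) := cp_inner _ y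
    rw [h1, cp_sum, Finset.mul_sum]
    refine Finset.sum_congr rfl fun i _ => ?_
    field_simp
  have hskew : ∀ x y : E n, ⟪J x, y⟫ = -⟪x, J y⟫ := by
    intro x y
    have h1 := hJ x y
    have h2 := hJ y x
    rw [cp_swap, h2, real_inner_comm] at h1
    have h3 : Real.sqrt β * (⟪J x, y⟫ + ⟪x, J y⟫) = 0 := by
      rw [mul_add]
      linarith
    rcases mul_eq_zero.1 h3 with h4 | h4
    · exact absurd h4 hc.ne'
    · linarith
  have hJJ : ∀ x y : E n, ⟪J x, J y⟫ = ⟪x, y⟫ - ⟪x, ν⟫ * ⟪y, ν⟫ := by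
    intro x y
    have h1 := h x y
    have h2 : MB ω x y = β * ⟪J x, J y⟫ := by
      rw [cp_MB]
      have h3 : ⟪J x, J y⟫ = ∑ i, (J y) i * ((Real.sqrt β)⁻¹ * ω ![x, e i]) := cp_inner _ _
      rw [h3, Finset.mul_sum]
      refine Finset.sum_congr rfl fun i _ => ?_
      have h4 : (J y) i = (Real.sqrt β)⁻¹ * ω ![y, e i] := rfl
      rw [h4]
      have h5 : β * ((Real.sqrt β)⁻¹ * (Real.sqrt β)⁻¹) = 1 := by
        rw [← mul_inv, hcc, mul_inv_cancel₀ hβ.ne']
      linear_combination (-(ω ![x, e i] * ω ![y, e i])) * h5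
    rw [h2] at h1
    exact mul_left_cancel₀ hβ.ne' h1
  refine ⟨J, hskew, fun x => ?_, hJ⟩
  refine ext_inner_right ℝ fun y => ?_
  rw [hskew, hJJ, inner_sub_left, real_inner_smul_left, real_inner_comm ν y]
  ring

end Pool.Agent.H91.OR
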