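import Pool.Agent.H8.RG.CP

set_option autoImplicit false

/-!
# The exceptional curvature tensors in odd dimensions
-/

namespace Pool.Agent.H91.OR

open Pool.Agent.H61.YP Pool.Agent.H8.RG
open scoped RealInnerProductSpace

variable {n : ℕ}

/-- the 4-linear form of the curvature tensor of the unit sphere -/
noncomputable def sphForm (x y z u : E n) : ℝ := ⟪y, z⟫ * ⟪x, u⟫ - ⟪x, z⟫ * ⟪y, u⟫

/-- the 4-linear form of the curvature tensor with the sectional curvatures `3 ⟪J x, y⟫²` -/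
noncomputable def kahForm (J : E n →ₗ[ℝ] E n) (x y z u : E n) : ℝ :=
  ⟪J y, z⟫ * ⟪J x, u⟫ - ⟪J x, z⟫ * ⟪J y, u⟫ + 2 * (⟪x, J y⟫ * ⟪J z, u⟫)

/-- `J` is skew, a complex structure on the orthogonal complement of the unit vector `ν`, and
kills `ν` -/
def IsCplx (J : E n →ₗ[ℝ] E n) (ν : E n) : Prop :=
  ‖ν‖ = 1 ∧ (∀ x y : E n, ⟪J x, y⟫ = -⟪x, J y⟫) ∧ ∀ x : E n, J (J x) = ⟪x, ν⟫ • ν - x

/-- `R` is, up to a positive factor, the sum of `(n - 3) / (n - 2)` times the curvature tensor of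
the unit sphere and of the curvature tensor with the sectional curvatures `3 ⟪J x, y⟫²`, for a
skew map `J` which is a complex structure on the orthogonal complement of a unit vector. -/
def IsOddModel (R : CurvTensor n) : Prop :=
  ∃ (l : ℝ) (J : E n →ₗ[ℝ] E n) (ν : E n), 0 < l ∧ IsCplx J ν ∧
    ∀ x y z u : E n, R.toFun x y z u
      = l * (((n : ℝ) - 3) / ((n : ℝ) - 2) * sphForm x y z u + kahForm J x y z u)

/-- `R` is not zero -/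
def NonZero (R : CurvTensor n) : Prop := ∃ x y z u, R.toFun x y z u ≠ 0

lemma isOddModel_iff (R : CurvTensor n) : IsOddModel R ↔
    ∃ (l : ℝ) (J : E n →ₗ[ℝ] E n) (ν : E n), 0 < l ∧ ‖ν‖ = 1 ∧
    (∀ x y : E n, ⟪J x, y⟫ = -⟪x, J y⟫) ∧ (∀ x : E n, J (J x) = ⟪x, ν⟫ • ν - x) ∧
    ∀ x y z u : E n, R.toFun x y z u
      = l * (((n : ℝ) - 3) / ((n : ℝ) - 2) * (⟪y, z⟫ * ⟪x, u⟫ - ⟪x, z⟫ * ⟪y, u⟫)
        + (⟪J y, z⟫ * ⟪J x, u⟫ - ⟪J x, z⟫ * ⟪J y, u⟫ + 2 * (⟪x, J y⟫ * ⟪J z, u⟫))) := by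
  constructor
  · rintro ⟨l, J, ν, h1, ⟨h2, h3, h4⟩, h5⟩
    exact ⟨l, J, ν, h1, h2, h3, h4, h5⟩
  · rintro ⟨l, J, ν, h1, h2, h3, h4, h5⟩
    exact ⟨l, J, ν, h1, ⟨h2, h3, h4⟩, h5⟩

end Pool.Agent.H91.OR
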