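import Pool.Agent.H91.OR.Defs

set_option autoImplicit false

/-!
# The curvature operator of an odd model does not kill the form
-/

namespace Pool.Agent.H91.OR

open Pool.Agent.H61.YP Pool.Agent.H8.RG
open scoped BigOperators RealInnerProductSpace

variable {n : ℕ}

private theorem I_inner_e (i : Fin n) (x : E n) : ⟪(e i : E n), x⟫ = x i := by
  unfold e
  rw [EuclideanSpace.inner_single_left]
  simp

private theorem I_inner_op (R : CurvTensor n) (x y z u : E n) :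
    ⟪R.op x y z, u⟫ = R.toFun x y z u := by
  have h : R.L4 x y z (∑ i, u i • (e i : E n)) = R.toFun x y z u := by
    rw [sum_coord]
    rfl
  rw [← h, map_sum]
  unfold CurvTensor.op
  rw [sum_inner]
  refine Finset.sum_congr rfl fun i _ => ?_
  rw [real_inner_smul_left, I_inner_e, map_smul, smul_eq_mul, mul_comm]
  rfl

private theorem I_exists (h5 : 5 ≤ n) (ν : E n) : ∃ y : E n, y ≠ 0 ∧ ⟪y, ν⟫ = 0 := by
  obtain ⟨i, hi⟩ : ∃ i : Fin n, i = ⟨0, by omega⟩ := ⟨_, rfl⟩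
  obtain ⟨j, hj⟩ : ∃ j : Fin n, j = ⟨1, by omega⟩ := ⟨_, rfl⟩
  have hij : i ≠ j := by
    rw [hi, hj]
    intro h
    have := congrArg Fin.val h
    simp at this
  by_cases h : ν i = 0
  · refine ⟨e i, ?_, by rw [I_inner_e, h]⟩
    intro h0
    have h1 := congrArg (fun x : E n => x i) h0
    simp [e] at h1
  · refine ⟨ν j • e i - ν i • e j, ?_, ?_⟩
    · intro h0
      have h1 := congrArg (fun x : E n => x j) h0
      simp [e, hij.symm] at h1
      exact h h1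
    · rw [inner_sub_left, real_inner_smul_left, real_inner_smul_left, I_inner_e, I_inner_e]
      ring

/-- Piece I: the curvature operator does not kill the form -/
theorem act_ne (h5 : 5 ≤ n) (R : CurvTensor n) (l : ℝ) (hl : 0 < l) (J : E n →ₗ[ℝ] E n)
    (ν : E n) (hν : ‖ν‖ = 1) (hs : ∀ x y : E n, ⟪J x, y⟫ = -⟪x, J y⟫)
    (hJ : ∀ x : E n, J (J x) = ⟪x, ν⟫ • ν - x)
    (hR : ∀ x y z u : E n, R.toFun x y z u
      = l * (((n : ℝ) - 3) / ((n : ℝ) - 2) * (⟪y, z⟫ * ⟪x, u⟫ - ⟪x, z⟫ * ⟪y, u⟫)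
        + (⟪J y, z⟫ * ⟪J x, u⟫ - ⟪J x, z⟫ * ⟪J y, u⟫ + 2 * (⟪x, J y⟫ * ⟪J z, u⟫))))
    (ω : Form n 2) (b : ℝ) (hb : b ≠ 0) (hω : ∀ x y : E n, ω ![x, y] = b * ⟪J x, y⟫) :
    ∃ (x y : E n) (v : Fin 2 → E n), R.act ω x y v ≠ 0 := by
  have hνν : ⟪ν, ν⟫ = 1 := by rw [real_inner_self_eq_norm_sq, hν, one_pow]
  have hJν : J ν = 0 := by
    have h1 : ⟪J ν, J ν⟫ = 0 := by
      rw [hs, hJ, hνν, one_smul, sub_self, inner_zero_right, neg_zero]
    exact inner_self_eq_zero.1 h1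
  obtain ⟨y, hy0, hyν⟩ := I_exists h5 ν
  have hyJ : ⟪J y, J y⟫ = ⟪y, y⟫ := by
    rw [hs, hJ, hyν, zero_smul, zero_sub, inner_neg_right, neg_neg]
  have hyy : ⟪y, y⟫ ≠ 0 := fun h => hy0 (inner_self_eq_zero.1 h)
  have hn : (5 : ℝ) ≤ n := by exact_mod_cast h5
  have hc : ((n : ℝ) - 3) / ((n : ℝ) - 2) ≠ 0 :=
    (div_pos (by linarith) (by linarith)).ne'
  have hop : R.op ν y ν = -(l * (((n : ℝ) - 3) / ((n : ℝ) - 2))) • y := by
    refine ext_inner_right ℝ fun u => ?_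
    rw [I_inner_op, hR, hyν, hνν, hJν, inner_zero_left, inner_zero_left, real_inner_smul_left]
    ring
  refine ⟨ν, y, ![ν, J y], ?_⟩
  have e0 : Function.update ![ν, J y] 0 (R.op ν y ν) = ![R.op ν y ν, J y] := by
    ext k
    fin_cases k <;> simp
  have e1 : Function.update ![ν, J y] 1 (R.op ν y (J y)) = ![ν, R.op ν y (J y)] := by
    ext k
    fin_cases k <;> simp
  have h2 : R.act ω ν y ![ν, J y] = -(ω ![R.op ν y ν, J y] + ω ![ν, R.op ν y (J y)]) := by
    unfold CurvTensor.act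
    rw [Fin.sum_univ_two]
    change -(ω (Function.update ![ν, J y] 0 (R.op ν y ν)) +
      ω (Function.update ![ν, J y] 1 (R.op ν y (J y)))) = _
    rw [e0, e1]
  rw [h2, hω, hω, hop, hJν, inner_zero_left, map_smul, real_inner_smul_left, hyJ]
  intro h3
  have h4 : b * (l * (((n : ℝ) - 3) / ((n : ℝ) - 2)) * ⟪y, y⟫) = 0 := by linarith
  rcases mul_eq_zero.1 h4 with h | h
  · exact hb h
  · rcases mul_eq_zero.1 h with h | h
    · rcases mul_eq_zero.1 h with h | h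
      · exact hl.ne' h
      · exact hc h
    · exact hyy h

end Pool.Agent.H91.OR
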