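import Mathlib

set_option autoImplicit false

/-!
# The constants of the other degrees are smaller
-/

namespace Pool.Agent.H91.OR

/-- odd dimension, degree neither `2` nor `n - 2` -/
theorem num_strict (n p a b : ℕ) (h5 : 5 ≤ n) (hn : Odd n) (hp : 0 < p) (hpn : p < n)
    (ha : Even a) (hap : a ≤ p) (hpa : p ≤ a + 1) (hb : Even b) (hbk : b ≤ n - p)
    (hkb : n - p ≤ b + 1) (h2 : p ≠ 2) (h2' : p ≠ n - 2) :
    (a : ℝ) * b / (3 * (p * ((n : ℝ) - p)) * ((a : ℝ) + b)
      + (n : ℝ) * ((n : ℝ) - 1) * (a * b)) < ((n : ℝ) - 3) / (((n : ℝ) - 1) * (n ^ 2 - 6)) := by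
  obtain ⟨k, rfl⟩ : ∃ k, n = p + k := ⟨n - p, by omega⟩
  have hk : 0 < k := by omega
  have hp' : (1 : ℝ) ≤ p := by exact_mod_cast hp
  have hk' : (1 : ℝ) ≤ k := by exact_mod_cast hk
  have ha0 : (0 : ℝ) ≤ a := Nat.cast_nonneg a
  have hb0 : (0 : ℝ) ≤ b := Nat.cast_nonneg b
  have hn3 : (5 : ℝ) ≤ (p : ℝ) + k := by exact_mod_cast h5
  push_cast
  have e1 : (p : ℝ) + k - p = k := by ring
  rw [e1]
  have hsum : (a : ℝ) + b = p + k - 1 := by
    have : a + b + 1 = p + k := by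
      rcases ha with ⟨c, rfl⟩
      rcases hb with ⟨d, rfl⟩
      rcases hn with ⟨m, hm⟩
      omega
    have h' : ((a + b + 1 : ℕ) : ℝ) = ((p + k : ℕ) : ℝ) := by rw [this]
    push_cast at h'
    linarith
  have hkey : (a : ℝ) * b * (p + k - 2) < (p + k - 3) * (p * k) := by
    rcases Nat.lt_or_ge a p with h1 | h1
    · -- `a = p - 1`, `b = k`, `k ≥ 4`
      have h2 : p = a + 1 := by omega
      have h4 : b = k := by
        rcases ha with ⟨c, rfl⟩
        rcases hb with ⟨d, rfl⟩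
        rcases hn with ⟨m, hm⟩
        omega
      have h5 : 3 ≤ k := by
        rcases hb with ⟨d, rfl⟩
        omega
      have h5' : (3 : ℝ) ≤ k := by exact_mod_cast h5
      have h6 : (a : ℝ) = p - 1 := by rw [h2]; push_cast; ring
      have h7 : (b : ℝ) = k := by rw [h4]
      rw [h6, h7]
      nlinarith [mul_pos (by linarith : (0 : ℝ) < (k : ℝ)) (by linarith : (0 : ℝ) < (k : ℝ) - 2)]
    · have h2 : a = p := by omega
      have h4 : k = b + 1 := by
        rcases ha with ⟨c, rfl⟩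
        rcases hb with ⟨d, rfl⟩
        rcases hn with ⟨m, hm⟩
        omega
      have h5 : 3 ≤ p := by
        rcases ha with ⟨d, rfl⟩
        omega
      have h5' : (3 : ℝ) ≤ p := by exact_mod_cast h5
      have h6 : (b : ℝ) = k - 1 := by rw [h4]; push_cast; ring
      have h7 : (a : ℝ) = p := by rw [h2]
      rw [h6, h7]
      nlinarith [mul_pos (by linarith : (0 : ℝ) < (p : ℝ)) (by linarith : (0 : ℝ) < (p : ℝ) - 2)]
  rw [hsum]
  have hN : 0 ≤ ((p : ℝ) + k) * ((p : ℝ) + k - 1) * (a * b) :=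
    mul_nonneg (mul_nonneg (by linarith) (by linarith)) (mul_nonneg ha0 hb0)
  have hK : 0 < 3 * ((p : ℝ) * k) * ((p : ℝ) + k - 1) := by
    have : (0 : ℝ) < (p : ℝ) + k - 1 := by linarith
    positivity
  have h6 : (0 : ℝ) < ((p : ℝ) + k) ^ 2 - 6 := by nlinarith
  have h1 : (0 : ℝ) < (p : ℝ) + k - 1 := by linarith
  rw [div_lt_div_iff₀ (by linarith) (mul_pos h1 h6)]
  have := mul_lt_mul_of_pos_left hkey h1
  nlinarith

end Pool.Agent.H91.OR
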