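import Pool.Agent.H91.OR.Two
import Pool.Agent.H91.OR.Model
import Pool.Agent.H91.OR.Num
import Pool.Agent.H91.OR.I
import Pool.Agent.H91.OR.F
import Pool.Agent.H21.OS.Dual

set_option autoImplicit false

/-!
# Rigidity in all degrees, odd dimension
-/

namespace Pool.Agent.H91.OR

open Pool.Agent.H61.YP Pool.Agent.H8.RG Pool.Agent.H91.OC Pool.Agent.H91.SX
open scoped BigOperators RealInnerProductSpace

variable {n : ℕ}

/-- the scalar curvature is positive -/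
lemma scal_pos (h5 : 5 ≤ n) (R : CurvTensor n) (hR : ∃ x y z u, R.toFun x y z u ≠ 0)
    (hsec : SecGe R (((n : ℝ) - 3) / (((n : ℝ) - 1) * (n ^ 2 - 6)) * R.scal)) :
    0 < R.scal := by
  have hn5 : (5 : ℝ) ≤ n := by exact_mod_cast h5
  have hn1 : (0 : ℝ) < (n : ℝ) - 1 := by linarith
  have hn2 : (0 : ℝ) < (n : ℝ) - 2 := by linarith
  have hn3 : (0 : ℝ) < (n : ℝ) - 3 := by linarith
  have hn6 : (0 : ℝ) < (n : ℝ) ^ 2 - 6 := by nlinarith
  set κ : ℝ := ((n : ℝ) - 3) / (((n : ℝ) - 1) * (n ^ 2 - 6)) with hκ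
  set c : ℝ := κ * R.scal with hc
  have hκN : 1 - κ * ((n : ℝ) * (n - 1)) = 3 * ((n : ℝ) - 2) / ((n : ℝ) ^ 2 - 6) := by
    rw [hκ]; field_simp; ring
  have hκN0 : 0 < 1 - κ * ((n : ℝ) * (n - 1)) := by rw [hκN]; positivity
  have hge := scal_ge R c hsec
  have hscal0 : 0 ≤ R.scal := by
    have h1 : 0 ≤ R.scal * (1 - κ * ((n : ℝ) * (n - 1))) := by
      have : R.scal * (1 - κ * ((n : ℝ) * (n - 1))) = R.scal - (n : ℝ) * (n - 1) * c := by
        rw [hc]; ring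
      rw [this]; linarith
    exact nonneg_of_mul_nonneg_left h1 hκN0
  have hext := R.sec_ext c hsec
  refine lt_of_le_of_ne hscal0 fun h0 => ?_
  obtain ⟨x, y, z, u, hne⟩ := hR
  refine hne (zero_of_scal R (fun x y => ?_) h0.symm x y z u)
  have := hext x y
  rw [hc, ← h0, mul_zero, zero_mul] at this
  exact this

lemma dualB (p : ℕ) (hpn : p < n) : ∀ q : ℕ, p = q + 2 → Odd p → DualB n q := by
  intro q hq ho w h hpos ω
  obtain ⟨k, hk⟩ : ∃ k, n = k + q + 2 := ⟨n - (q + 2), by omega⟩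
  exact Pool.Agent.H21.OS.dual_sharp h hpos k q (hq ▸ ho) hk (by omega) ω

/-- **Rigidity in odd dimensions.** -/
theorem rigid_odd (n p : ℕ) (hn : Odd n) (h5 : 5 ≤ n) (hp : 0 < p) (hpn : p < n)
    (R : CurvTensor n) (hR : ∃ x y z u, R.toFun x y z u ≠ 0)
    (hsec : SecGe R (((n : ℝ) - 3) / (((n : ℝ) - 1) * (n ^ 2 - 6)) * R.scal))
    (hN : NotPos R p) : (p = 2 ∨ p = n - 2) ∧ IsOddModel R := by
  obtain ⟨ω, hω, hw⟩ := hN
  have hscal := scal_pos h5 R hR hsec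
  by_cases h2 : p = 2
  · subst h2
    obtain ⟨l, J, ν, b, h1, h2, h3, h4, h6, -, -⟩ := rigid_two_odd hn h5 R hR hsec ω hω hw
    exact ⟨Or.inl rfl, (isOddModel_iff R).2 ⟨l, J, ν, h1, h2, h3, h4, h6⟩⟩
  by_cases h2' : p = n - 2
  · obtain ⟨q, hq⟩ : ∃ q, p = q + 2 := ⟨p - 2, by omega⟩
    refine ⟨Or.inr h2', ?_⟩
    subst hq
    obtain ⟨η, hη, hwη⟩ := star_two (by omega : n = q + 4) R ω hω hw
    obtain ⟨l, J, ν, b, h1, h2, h3, h4, h6, -, -⟩ := rigid_two_odd hn h5 R hR hsec η hη hwη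
    exact (isOddModel_iff R).2 ⟨l, J, ν, h1, h2, h3, h4, h6⟩
  exfalso
  -- the largest even numbers
  obtain ⟨a, ha, hap, hpa⟩ : ∃ a, Even a ∧ a ≤ p ∧ p ≤ a + 1 :=
    ⟨2 * (p / 2), even_two_mul _, by omega, by omega⟩
  obtain ⟨b, hb, hbk, hkb⟩ : ∃ b, Even b ∧ b ≤ n - p ∧ n - p ≤ b + 1 :=
    ⟨2 * ((n - p) / 2), even_two_mul _, by omega, by omega⟩
  have hlt := num_strict n p a b h5 hn hp hpn ha hap hpa hb hbk hkb h2 h2'
  have hpos := pos_all_deg n p a b (by omega) hp hpn ha hap hpa hb hbk hkb (dualB p hpn) R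
    (fun x y hx hy hxy => lt_of_lt_of_le (mul_lt_mul_of_pos_right hlt hscal)
      (hsec x y hx hy hxy)) ω hω
  linarith

end Pool.Agent.H91.OR
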