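import Pool.Agent.H91.OR.A
import Pool.Agent.H91.OR.B
import Pool.Agent.H91.OR.C
import Pool.Agent.H91.OR.Cp
import Pool.Agent.H91.SX.Comb
import Pool.Agent.H91.SX.Ex
import Pool.Agent.H8.RG.Zero
import Pool.Agent.H8.RG.Final

set_option autoImplicit false

/-!
# Rigidity in degree two, odd dimension
-/

namespace Pool.Agent.H91.OR

open Pool.Agent.H61.YP Pool.Agent.H8.RG Pool.Agent.H91.OC Pool.Agent.H91.SX
open scoped BigOperators RealInnerProductSpace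

variable {n : ℕ}

lemma form_two (ω : Form n 2) (x y : E n) : ((ω.curryLeft x).curryLeft y) ![] = ω ![x, y] := by
  rw [AlternatingMap.curryLeft_apply_apply, AlternatingMap.curryLeft_apply_apply]

lemma form_skew (ω : Form n 2) (x y : E n) : ω ![y, x] = -ω ![x, y] := by
  rw [← form_two, ← form_two, curry_swap ω y x]
  rfl

/-- the linear map of a form -/
noncomputable def TM (ω : Form n 2) : E n →ₗ[ℝ] E n where
  toFun x := ∑ i, ω ![x, e i] • (e i : E n)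
  map_add' x y := by
    rw [← Finset.sum_add_distrib]
    refine Finset.sum_congr rfl fun i _ => ?_
    rw [← add_smul, ← form_two, ← form_two, ← form_two, map_add]
    rfl
  map_smul' a x := by
    rw [Finset.smul_sum]
    refine Finset.sum_congr rfl fun i _ => ?_
    rw [smul_smul, ← form_two, ← form_two, map_smul]
    rfl

lemma inner_TM (ω : Form n 2) (x y : E n) : ⟪TM ω x, y⟫ = ω ![x, y] := by
  have h1 := inner_sum_e ((ω.curryLeft x).toMultilinearMap.toLinearMap ![0] 0) y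
  have h2 : ∀ z : E n, (ω.curryLeft x).toMultilinearMap.toLinearMap ![0] 0 z = ω ![x, z] := by
    intro z
    rw [MultilinearMap.toLinearMap_apply]
    change (ω.curryLeft x) (Function.update ![0] 0 z) = _
    rw [AlternatingMap.curryLeft_apply_apply]
    congr 1
    funext i
    fin_cases i <;> rfl
  simp_rw [h2] at h1
  exact h1

lemma TM_skew (ω : Form n 2) (x y : E n) : ⟪TM ω x, y⟫ = -⟪TM ω y, x⟫ := by
  rw [inner_TM, inner_TM, form_skew ω y x]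

lemma MB_two (ω : Form n 2) (x y : E n) : MB ω x y = ∑ i, ω ![x, e i] * ω ![y, e i] := by
  rw [MB_apply, ip_succ]
  refine Finset.sum_congr rfl fun i _ => ?_
  rw [CurvTensor.ip_zero_deg, form_two, form_two]

lemma smulT_apply (a : ℝ) (R : CurvTensor n) (x y z u : E n) :
    (smulT a R).toFun x y z u = a * R.toFun x y z u := rfl

/-- the components of a tensor with sectional curvatures `lam ω²` -/
lemma W_eq (W : CurvTensor n) (ω : Form n 2) (lam : ℝ)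
    (h : ∀ x y : E n, W.toFun x y y x = lam * ω ![x, y] ^ 2) (x y z u : E n) :
    W.toFun x y z u = lam / 3 * (ω ![y, z] * ω ![x, u] - ω ![x, z] * ω ![y, u]
      - 2 * ω ![x, y] * ω ![z, u]) := by
  have h1 := Conv_ext W (smulT lam (RJ 0 (TM ω) (TM_skew ω))) (fun x y => ?_) x y z u
  · rw [h1, smulT_apply]
    change lam * (0 * _ + 1 / 3 * (⟪TM ω y, z⟫ * ⟪TM ω x, u⟫ - ⟪TM ω x, z⟫ * ⟪TM ω y, u⟫
      - 2 * ⟪TM ω x, y⟫ * ⟪TM ω z, u⟫)) = _
    simp only [inner_TM]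
    ring
  · rw [h, smulT_apply]
    change _ = lam * (0 * _ + 1 / 3 * (⟪TM ω y, y⟫ * ⟪TM ω x, x⟫ - ⟪TM ω x, y⟫ * ⟪TM ω y, x⟫
      - 2 * ⟪TM ω x, y⟫ * ⟪TM ω y, x⟫))
    simp only [inner_TM]
    have h2 : ω ![x, x] = 0 := by
      have := form_skew ω x x
      linarith
    rw [form_skew ω x y, h2]
    ring

lemma W_ric (W : CurvTensor n) (ω : Form n 2) (lam : ℝ)
    (h : ∀ x y : E n, W.toFun x y y x = lam * ω ![x, y] ^ 2) (j k : Fin n) :
    ricA W.comp j k = lam * MB ω (e j) (e k) := by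
  unfold ricA CurvTensor.comp
  rw [MB_two, Finset.mul_sum]
  refine Finset.sum_congr rfl fun i _ => ?_
  rw [W_eq W ω lam h, form_skew ω (e j) (e i), form_skew ω (e k) (e i)]
  have h2 : ω ![(e i : E n), e i] = 0 := by
    have := form_skew ω (e i) (e i)
    linarith
  rw [h2]
  ring

/-- **Rigidity in degree two.** -/
theorem rigid_two_odd (hn : Odd n) (h5 : 5 ≤ n) (R : CurvTensor n)
    (hR : ∃ x y z u, R.toFun x y z u ≠ 0)
    (hsec : SecGe R (((n : ℝ) - 3) / (((n : ℝ) - 1) * (n ^ 2 - 6)) * R.scal))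
    (ω : Form n 2) (hω : ω ≠ 0) (hw : R.weitzForm ω ≤ 0) :
    ∃ (l : ℝ) (J : E n →ₗ[ℝ] E n) (ν : E n) (b : ℝ), 0 < l ∧ ‖ν‖ = 1 ∧
    (∀ x y : E n, ⟪J x, y⟫ = -⟪x, J y⟫) ∧ (∀ x : E n, J (J x) = ⟪x, ν⟫ • ν - x) ∧
    (∀ x y z u : E n, R.toFun x y z u
      = l * (((n : ℝ) - 3) / ((n : ℝ) - 2) * (⟪y, z⟫ * ⟪x, u⟫ - ⟪x, z⟫ * ⟪y, u⟫)
        + (⟪J y, z⟫ * ⟪J x, u⟫ - ⟪J x, z⟫ * ⟪J y, u⟫ + 2 * (⟪x, J y⟫ * ⟪J z, u⟫)))) ∧
    b ≠ 0 ∧ ∀ x y : E n, ω ![x, y] = b * ⟪J x, y⟫ := by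
  have hn5 : (5 : ℝ) ≤ n := by exact_mod_cast h5
  have hn1 : (0 : ℝ) < (n : ℝ) - 1 := by linarith
  have hn2 : (0 : ℝ) < (n : ℝ) - 2 := by linarith
  have hn3 : (0 : ℝ) < (n : ℝ) - 3 := by linarith
  have hn6 : (0 : ℝ) < (n : ℝ) ^ 2 - 6 := by nlinarith
  set κ : ℝ := ((n : ℝ) - 3) / (((n : ℝ) - 1) * (n ^ 2 - 6)) with hκ
  have hκ0 : 0 < κ := by positivity
  set c : ℝ := κ * R.scal with hc
  have hκN : 1 - κ * ((n : ℝ) * (n - 1)) = 3 * ((n : ℝ) - 2) / ((n : ℝ) ^ 2 - 6) := by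
    rw [hκ]; field_simp; ring
  have hκN0 : 0 < 1 - κ * ((n : ℝ) * (n - 1)) := by rw [hκN]; positivity
  have hge := scal_ge R c hsec
  have hscal0 : 0 ≤ R.scal := by
    have h1 : 0 ≤ R.scal * (1 - κ * ((n : ℝ) * (n - 1))) := by
      have : R.scal * (1 - κ * ((n : ℝ) * (n - 1))) = R.scal - (n : ℝ) * (n - 1) * c := by
        rw [hc]; ring
      rw [this]; linarith
    exact nonneg_of_mul_nonneg_left h1 hκN0
  have hext := R.sec_ext c hsec
  have hscal : 0 < R.scal := by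
    refine lt_of_le_of_ne hscal0 fun h0 => ?_
    obtain ⟨x, y, z, u, hne⟩ := hR
    refine hne (zero_of_scal R (fun x y => ?_) h0.symm x y z u)
    have := hext x y
    rw [hc, ← h0, mul_zero, zero_mul] at this
    exact this
  have hc0 : 0 < c := mul_pos hκ0 hscal
  set W := resid R c with hWd
  have hWpos : ∀ x y : E n, 0 ≤ W.toFun x y y x := resid_pos R c hext
  have hcomp : W.comp = R.wA c := resid_comp R c
  have hN := CurvTensor.ip_pos ω hω
  set N : ℝ := ip ω ω with hNd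
  -- the data of `W`
  set s : ℝ := scalA W.comp with hs
  set r : ℝ := rA W.comp ω with hr
  set Q : ℝ := QA W.comp ω with hQ
  have hsR : s = R.scal - c * ((n : ℝ) * (n - 1)) := by
    rw [hs, hcomp, CurvTensor.scalA_wA, ← CurvTensor.scal_eq]
  have hs1 : s * ((n : ℝ) - 3) = 3 * (n - 1) * (n - 2) * c := by
    have h1 : s = R.scal * (1 - κ * ((n : ℝ) * (n - 1))) := by rw [hsR, hc]; ring
    rw [h1, hκN, hc, hκ]
    field_simp
  have hs0 : 0 < s := by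
    have h1 : s = R.scal * (1 - κ * ((n : ℝ) * (n - 1))) := by rw [hsR, hc]; ring
    rw [h1]; positivity
  have hrR : r = rA R.comp ω - c * (((n : ℝ) - 1) * N) := by
    rw [hr, hcomp, CurvTensor.rA_wA]
  have hQR : Q = QA R.comp ω - c * N := by
    rw [hQ, hcomp, CurvTensor.QA_wA]
  have hwR := CurvTensor.weitzForm_comp (q := 0) R ω
  have hw1 : r - Q + c * (n - 2) * N ≤ 0 := by
    have h1 : R.weitzForm ω = 2 * (rA R.comp ω - QA R.comp ω) := by
      rw [hwR]; push_cast; ring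
    rw [h1] at hw
    rw [hrR, hQR]
    linarith
  have hpos' := R.wA_pos c hext
  have hcA := coreA (q := 0) (R.wA_isCurv c) hpos' ω
  have hU := Pool.Agent.H21.OE.univ_sharp (R.wA_isCurv c) hpos' (n - 2) 0
    (by obtain ⟨m, hm⟩ := hn; exact ⟨m - 1, by omega⟩) (by omega) ω
  rw [← hcomp] at hcA hU
  have hcA' : 3 * Q ≤ s * N + r := by
    have : 3 * (((0 : ℕ) : ℝ) + 1) * Q ≤ s * N + (1 - ((0 : ℕ) : ℝ)) * r := by
      linarith
    push_cast at this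
    linarith
  have hU' : 3 * Q ≤ n * r := by
    have h2 : (((n - 2 : ℕ) : ℝ) + 2) = n := by
      rw [Nat.cast_sub (by omega)]; push_cast; ring
    rw [h2] at hU
    push_cast at hU
    linarith
  -- equality
  have hw2 : 3 * ((n : ℝ) - 1) * (r - Q) ≤ -((n - 3) * (s * N)) := by
    have h1 : (n - 1 : ℝ) * (r - Q + c * (n - 2) * N) ≤ 0 :=
      mul_nonpos_of_nonneg_of_nonpos hn1.le hw1
    have h2 : ((n : ℝ) - 3) * (s * N) = 3 * (n - 1) * (n - 2) * c * N := by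
      rw [← hs1]; ring
    linarith
  have hr1 : ((n : ℝ) - 1) * r ≤ s * N := by
    have h1 := mul_le_mul_of_nonneg_left hcA' hn1.le
    linarith
  have hr2 : s * N ≤ ((n : ℝ) - 1) * r := by
    have h1 := mul_le_mul_of_nonneg_left hU' hn1.le
    have h2 : ((n : ℝ) - 3) * (s * N) ≤ (n - 3) * ((n - 1) * r) := by linarith
    exact le_of_mul_le_mul_left h2 hn3
  have hreq : ((n : ℝ) - 1) * r = s * N := le_antisymm hr1 hr2
  have hQeq : 3 * Q = s * N + r := by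
    refine le_antisymm hcA' ?_
    have h2 : ((n : ℝ) - 1) * (s * N + r) ≤ (n - 1) * (3 * Q) := by linarith
    exact le_of_mul_le_mul_left h2 hn1
  -- structure
  obtain ⟨lam, hlam0, hlam⟩ := lam_of_zero W hWpos ω hω
    (fun x y hxy hx => core_two W hWpos ω hQeq x y hxy hx)
  have hric := W_ric W ω lam hlam
  have hsl : s = lam * N := by
    rw [hs]
    unfold scalA
    simp_rw [hric]
    rw [← Finset.mul_sum, trace_MB]
  have hlam1 : 0 < lam := by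
    refine lt_of_le_of_ne hlam0 fun h0 => ?_
    rw [hsl, ← h0, zero_mul] at hs0
    exact lt_irrefl _ hs0
  have hrl : r = lam * ∑ j, ∑ k, MB ω (e j) (e k) ^ 2 := by
    rw [hr]
    unfold rA
    rw [Finset.mul_sum]
    refine Finset.sum_congr rfl fun j _ => ?_
    rw [Finset.mul_sum]
    refine Finset.sum_congr rfl fun k _ => ?_
    rw [hric]
    ring
  obtain ⟨ν, hν, hMB⟩ := gram_odd hn (by omega) ω (by
    rw [hrl, hsl] at hreq
    have h1 : lam * (((n : ℝ) - 1) * ∑ j, ∑ k, MB ω (e j) (e k) ^ 2) = lam * (N ^ 2) := by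
      linarith
    exact mul_left_cancel₀ hlam1.ne' h1)
  set β : ℝ := ip ω ω / ((n : ℝ) - 1) with hβ
  have hβ0 : 0 < β := div_pos hN hn1
  obtain ⟨J, hJs, hJJ, hJω⟩ := exists_map ω β hβ0 ν hν hMB
  refine ⟨lam * β / 3, J, ν, Real.sqrt β, by positivity, hν, hJs, hJJ, ?_,
    (Real.sqrt_pos.mpr hβ0).ne', hJω⟩
  have hJs' : ∀ x y : E n, ⟪J x, y⟫ = -⟪J y, x⟫ := by
    intro x y
    rw [hJs, real_inner_comm]
  have hcβ : c = lam * β * (((n : ℝ) - 3) / (3 * ((n : ℝ) - 2))) := by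
    have h1 : N = β * ((n : ℝ) - 1) := by
      rw [hβ, hNd]; field_simp
    rw [hsl, h1] at hs1
    have h2 : 3 * ((n : ℝ) - 2) * c = lam * β * (n - 3) := by
      have h3 : ((n : ℝ) - 1) * (3 * ((n : ℝ) - 2) * c) = (n - 1) * (lam * β * (n - 3)) := by
        linarith
      exact mul_left_cancel₀ hn1.ne' h3
    field_simp
    linarith
  intro x y z u
  have h1 := Conv_ext R (smulT (lam * β) (RJ (((n : ℝ) - 3) / (3 * ((n : ℝ) - 2))) J hJs'))
    (fun x y => ?_) x y z u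
  · rw [h1, smulT_apply]
    change lam * β * (((n : ℝ) - 3) / (3 * ((n : ℝ) - 2)) * (⟪y, z⟫ * ⟪x, u⟫ - ⟪x, z⟫ * ⟪y, u⟫)
      + 1 / 3 * (⟪J y, z⟫ * ⟪J x, u⟫ - ⟪J x, z⟫ * ⟪J y, u⟫ - 2 * ⟪J x, y⟫ * ⟪J z, u⟫)) = _
    rw [hJs x y]
    have h2 : ((n : ℝ) - 3) / (3 * ((n : ℝ) - 2)) = 1 / 3 * (((n : ℝ) - 3) / ((n : ℝ) - 2)) := by
      field_simp
    rw [h2]
    ring
  · rw [smulT_apply]
    change _ = lam * β * (((n : ℝ) - 3) / (3 * ((n : ℝ) - 2)) * (⟪y, y⟫ * ⟪x, x⟫ - ⟪x, y⟫ * ⟪y, x⟫)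
      + 1 / 3 * (⟪J y, y⟫ * ⟪J x, x⟫ - ⟪J x, y⟫ * ⟪J y, x⟫ - 2 * ⟪J x, y⟫ * ⟪J y, x⟫))
    have h3 : R.toFun x y y x = c * (⟪y, y⟫ * ⟪x, x⟫ - ⟪x, y⟫ * ⟪y, x⟫) + W.toFun x y y x := by
      change _ = _ + (R.toFun x y y x - c * (⟪y, y⟫ * ⟪x, x⟫ - ⟪x, y⟫ * ⟪y, x⟫))
      ring
    rw [h3, hlam, hJω, mul_pow, Real.sq_sqrt hβ0.le, self_zero J hJs' x, hJs' y x, hcβ]
    ring

end Pool.Agent.H91.OR
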